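import Mathlib

set_option autoImplicit false

/-!
# MP_6cb088_co: reduction of the frozen statement to a closed family of configurations
-/

namespace Pool.Agent.Lib.MP_6cb088_co

open Finset

/-- Every member of `F` has `k` guards and every attack on it can be answered inside `F`. -/
def Closed {V : Type} [DecidableEq V] (G : SimpleGraph V) (k : ℕ) (F : Set (Finset V)) : Prop :=
  ∀ D ∈ F, D.card = k ∧
    ∀ v : V, ∃ u ∈ D, (u = v ∨ G.Adj u v) ∧ insert v (D.erase u) ∈ F

theorem card_le_of_closed {V : Type} [DecidableEq V] (G : SimpleGraph V) (k : ℕ)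
    (F : Set (Finset V)) (hF : F.Nonempty) (hc : Closed G k F) (I : Finset V)
    (hI : G.IsIndepSet (I : Set V)) : I.card ≤ k := by
  have key : ∀ J : Finset V, J ⊆ I → ∃ D ∈ F, J ⊆ D := by
    intro J
    induction J using Finset.induction_on with
    | empty =>
      intro _
      obtain ⟨D, hD⟩ := hF
      exact ⟨D, hD, by simp⟩
    | insert v J hv ih =>
      intro hJ
      obtain ⟨D, hD, hJD⟩ := ih (fun x hx => hJ (mem_insert_of_mem hx))
      obtain ⟨u, hu, huv, hn⟩ := (hc D hD).2 v
      refine ⟨_, hn, ?_⟩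
      intro x hx
      rcases mem_insert.1 hx with h | hx
      · rw [h]
        exact mem_insert_self _ _
      · by_cases hxu : x = u
        · rcases huv with h | h
          · exact absurd ((hxu.trans h) ▸ hx) hv
          · have hxI : x ∈ I := hJ (mem_insert_of_mem hx)
            have hvI : v ∈ I := hJ (mem_insert_self _ _)
            have hne : x ≠ v := by
              intro e
              exact hv (e ▸ hx)
            exact absurd (hxu ▸ h) (hI (by exact_mod_cast hxI) (by exact_mod_cast hvI) hne)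
        · exact mem_insert_of_mem (mem_erase.2 ⟨hxu, hJD hx⟩)
  obtain ⟨D, hD, h⟩ := key I (Subset.refl _)
  rw [← (hc D hD).1]
  exact card_le_card h

theorem card_le_two_mul {V : Type} [Fintype V] [DecidableEq V] (G : SimpleGraph V)
    (hG : G.CliqueFree 3) (k : ℕ) (h : Gᶜ.Colorable k) : Fintype.card V ≤ 2 * k := by
  classical
  obtain ⟨c⟩ := h
  have h1 : ∀ b ∈ (univ : Finset (Fin k)), (univ.filter (fun x => c x = b)).card ≤ 2 := by
    intro b _
    by_contra hlt
    obtain ⟨s, hs, hcard⟩ := exists_subset_card_eq (not_le.1 hlt)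
    refine hG s ?_
    rw [SimpleGraph.isNClique_iff]
    refine ⟨?_, hcard⟩
    intro x hx y hy hxy
    have hx' := (mem_filter.1 (hs hx)).2
    have hy' := (mem_filter.1 (hs hy)).2
    by_contra hadj
    have : Gᶜ.Adj x y := by
      rw [SimpleGraph.compl_adj]
      exact ⟨hxy, hadj⟩
    exact c.valid this (hx'.trans hy'.symm)
  have h2 := card_eq_sum_card_fiberwise (f := c) (s := (univ : Finset V)) (t := univ)
    (fun _ _ => by simp)
  have h3 : ∑ b ∈ (univ : Finset (Fin k)), (univ.filter (fun x => c x = b)).card ≤ k * 2 := by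
    have := sum_le_card_nsmul univ _ 2 h1
    simpa using this
  rw [card_univ] at h2
  rw [h2]
  omega

/-- The frozen statement from one closed family. -/
theorem frozen_of {V : Type} [Fintype V] [DecidableEq V] (G : SimpleGraph V)
    (hG : G.CliqueFree 3) (k : ℕ) (I : Finset V) (hI : G.IsIndepSet (I : Set V))
    (hIk : I.card = k) (hV : 2 * k < Fintype.card V) (F : Set (Finset V)) (hF : F.Nonempty)
    (hc : Closed G k F) :
    G.CliqueFree 3 ∧
    (∃ F : Set (Finset V), F.Nonempty ∧ ∀ D ∈ F, D.card = G.indepNum ∧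
        ∀ v : V, ∃ u ∈ D, (u = v ∨ G.Adj u v) ∧ insert v (D.erase u) ∈ F) ∧
    (∀ k : ℕ, k < G.indepNum → ¬ ∃ F : Set (Finset V), F.Nonempty ∧ ∀ D ∈ F, D.card = k ∧
        ∀ v : V, ∃ u ∈ D, (u = v ∨ G.Adj u v) ∧ insert v (D.erase u) ∈ F) ∧
    ((G.indepNum : ℕ∞) < Gᶜ.chromaticNumber) := by
  have hα : G.indepNum = k := by
    apply le_antisymm
    · obtain ⟨J, hJ⟩ := G.exists_isNIndepSet_indepNum
      rw [← hJ.card_eq]
      exact card_le_of_closed G k F hF hc J hJ.isIndepSet
    · rw [← hIk]
      exact hI.card_le_indepNum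
  refine ⟨hG, ⟨F, hF, ?_⟩, ?_, ?_⟩
  · rw [hα]
    exact hc
  · rintro j hj ⟨F', hF', hc'⟩
    have := card_le_of_closed G j F' hF' hc' I hI
    omega
  · rw [hα]
    by_contra hle
    have hle := not_lt.1 hle
    have := card_le_two_mul G hG k (SimpleGraph.chromaticNumber_le_iff_colorable.1 hle)
    omega

end Pool.Agent.Lib.MP_6cb088_co
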