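import Pool.Agent.Lib.MP_6cb088_co.Game

set_option autoImplicit false
set_option linter.unusedSectionVars false
set_option maxRecDepth 4000

/-!
# The family of sign vectors: nonzero affine functions on `F_2^7`
-/

namespace Pool.Agent.MP_6cb088_co

open Finset

abbrev LL : Type := Fin 7 → ZMod 2

abbrev AA : Type := (Fin 7 → ZMod 2) × ZMod 2

abbrev II : Type := {p : AA // p ≠ 0}

/-- Value of the affine function `p` at the point `l`. -/
def ev (p : AA) (l : LL) : ZMod 2 := (∑ i, p.1 i * l i) + p.2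

theorem ev_add (p q : AA) (l : LL) : ev (p + q) l = ev p l + ev q l := by
  unfold ev
  simp only [Prod.fst_add, Prod.snd_add, Pi.add_apply, add_mul, Finset.sum_add_distrib]
  ring

theorem ev_smul (x : ZMod 2) (p : AA) (l : LL) : ev (x • p) l = x * ev p l := by
  unfold ev
  simp only [Prod.smul_fst, Prod.smul_snd, Pi.smul_apply, smul_eq_mul, mul_assoc, mul_add,
    Finset.mul_sum]

/-- The sign vectors. -/
def ss (v : II) (l : LL) : Bool := decide (ev v.1 l = 1)

theorem ss_inj {v w : II} {l : LL} (h : ss v l = ss w l) : ev v.1 l = ev w.1 l := by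
  unfold ss at h
  revert h
  generalize ev v.1 l = a
  generalize ev w.1 l = b
  revert a b
  decide

theorem ev_single (p : Fin 7) (b : ZMod 2) (l : LL) : ev (Pi.single p 1, b) l = l p + b := by
  unfold ev
  simp [Pi.single_apply]

theorem exists_dual (l₁ l₂ l₃ : LL) (h12 : l₁ ≠ l₂) (h13 : l₁ ≠ l₃) :
    ∃ g : AA, ev g l₁ = 1 ∧ ev g l₂ = 0 ∧ ev g l₃ = 0 := by
  obtain ⟨p, hp⟩ := Function.ne_iff.1 h12
  obtain ⟨q, hq⟩ := Function.ne_iff.1 h13
  have key1 : ∀ a b : ZMod 2, a ≠ b → b + (a + 1) = 0 := by decide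
  have key0 : ∀ a : ZMod 2, a + (a + 1) = 1 := by decide
  by_cases h1 : l₁ p = l₃ p
  · by_cases h2 : l₁ q = l₂ q
    · refine ⟨(Pi.single p 1, l₁ p + 1) + (Pi.single q 1, l₁ q), ?_, ?_, ?_⟩
      · rw [ev_add, ev_single, ev_single]
        generalize l₁ p = a
        generalize l₁ q = b
        revert a b; decide
      · rw [ev_add, ev_single, ev_single, ← h2, key1 _ _ hp]
        generalize l₁ q = b
        revert b; decide
      · rw [ev_add, ev_single, ev_single, ← h1]
        revert hq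
        generalize l₁ p = a
        generalize l₁ q = b
        generalize l₃ q = c
        revert a b c; decide
    · refine ⟨(Pi.single q 1, l₁ q + 1), ?_, ?_, ?_⟩
      · rw [ev_single]; exact key0 _
      · rw [ev_single]; exact key1 _ _ h2
      · rw [ev_single]; exact key1 _ _ hq
  · refine ⟨(Pi.single p 1, l₁ p + 1), ?_, ?_, ?_⟩
    · rw [ev_single]; exact key0 _
    · rw [ev_single]; exact key1 _ _ hp
    · rw [ev_single]; exact key1 _ _ h1

theorem card_le_of_inj {α β : Type} [Fintype β] [DecidableEq β] (S : Finset α) (f : α → β)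
    (hf : ∀ x ∈ S, ∀ y ∈ S, f x = f y → x = y) : S.card ≤ Fintype.card β := by
  rw [← Finset.card_image_of_injOn (s := S) (f := f) (fun x hx y hy h => hf x hx y hy h)]
  exact Finset.card_le_univ _

theorem card_mul_le_of_inj {α β γ : Type} [Fintype β] [DecidableEq β] [Fintype γ]
    (S : Finset α) (f : α → γ → β)
    (hf : ∀ x ∈ S, ∀ y ∈ S, ∀ p q, f x p = f y q → x = y ∧ p = q) :
    S.card * Fintype.card γ ≤ Fintype.card β := by
  have := card_le_of_inj (S ×ˢ (univ : Finset γ)) (fun x => f x.1 x.2) (by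
    rintro ⟨x, p⟩ hx ⟨y, q⟩ hy h
    obtain ⟨h1, h2⟩ := hf x (Finset.mem_product.1 hx).1 y (Finset.mem_product.1 hy).1 p q h
    rw [h1, h2])
  rw [Finset.card_product, Finset.card_univ] at this
  exact this

theorem cardLL : Fintype.card LL = 128 := by simp [ZMod.card]

theorem cardAA : Fintype.card AA = 256 := by simp [ZMod.card]

theorem cardII : Fintype.card II = 255 := by
  have h2 : Fintype.card II = Fintype.card AA - 1 := by
    rw [Fintype.card_subtype_compl, Fintype.card_subtype_eq]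
  rw [h2, cardAA]

theorem c1' (l : LL) (σ : Bool) : (univ.filter fun v : II => ss v l = σ).card ≤ 128 := by
  rw [← cardLL]
  apply card_le_of_inj _ (fun v : II => v.1.1)
  intro v hv w hw hvw
  rw [Finset.mem_filter] at hv hw
  have h3 := ss_inj (hv.2.trans hw.2.symm)
  have hvw' : v.1.1 = w.1.1 := hvw
  unfold ev at h3
  rw [hvw'] at h3
  have h4 := add_left_cancel h3
  exact Subtype.ext (Prod.ext hvw' h4)

theorem c3' (l₁ l₂ l₃ : LL) (σ₁ σ₂ σ₃ : Bool) (h12 : l₁ ≠ l₂) (h13 : l₁ ≠ l₃) (h23 : l₂ ≠ l₃) :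
    (univ.filter fun v : II => ss v l₁ = σ₁ ∧ ss v l₂ = σ₂ ∧ ss v l₃ = σ₃).card ≤ 32 := by
  obtain ⟨g₁, a11, a12, a13⟩ := exists_dual l₁ l₂ l₃ h12 h13
  obtain ⟨g₂, a22, a21, a23⟩ := exists_dual l₂ l₁ l₃ h12.symm h23
  obtain ⟨g₃, a33, a31, a32⟩ := exists_dual l₃ l₁ l₂ h13.symm h23.symm
  have h1 := card_mul_le_of_inj (β := AA) (γ := ZMod 2 × ZMod 2 × ZMod 2)
    (univ.filter fun v : II => ss v l₁ = σ₁ ∧ ss v l₂ = σ₂ ∧ ss v l₃ = σ₃)
    (fun v x => v.1 + x.1 • g₁ + x.2.1 • g₂ + x.2.2 • g₃) (by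
      rintro v hv v' hv' ⟨x, y, z⟩ ⟨x', y', z'⟩ e'
      rw [Finset.mem_filter] at hv hv'
      have hv1 := hv.2
      have hv2 := hv'.2
      have e1 := ss_inj (hv1.1.trans hv2.1.symm)
      have e2 := ss_inj (hv1.2.1.trans hv2.2.1.symm)
      have e3 := ss_inj (hv1.2.2.trans hv2.2.2.symm)
      dsimp only at e'
      have k1 := congrArg (fun p => ev p l₁) e'
      have k2 := congrArg (fun p => ev p l₂) e'
      have k3 := congrArg (fun p => ev p l₃) e'
      simp only [ev_add, ev_smul, a11, a12, a13, a22, a21, a23, a33, a31, a32, mul_one,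
        mul_zero, add_zero, e1, e2, e3] at k1 k2 k3
      have j1 := add_left_cancel k1
      have j2 := add_left_cancel k2
      have j3 := add_left_cancel k3
      subst j1 j2 j3
      have e4 : v.1 = v'.1 := by
        have := add_right_cancel e'
        have := add_right_cancel this
        exact add_right_cancel this
      exact ⟨Subtype.ext e4, rfl⟩)
  have h3 : Fintype.card (ZMod 2 × ZMod 2 × ZMod 2) = 8 := by simp [ZMod.card]
  rw [cardAA, h3] at h1
  omega

theorem data : Data LL II ss where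
  hL := cardLL
  hI := cardII
  c1 := c1'
  c3 := c3'

end Pool.Agent.MP_6cb088_co
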