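import Pool.Agent.Lib.MP_6cb088_co.Code

set_option autoImplicit false
set_option linter.unusedSectionVars false

namespace Pool.Agent.MP_6cb088_co

open Finset

section Graph

variable {L I : Type} [Fintype L] [DecidableEq L] [Fintype I] [DecidableEq I]

/-- The graph on `(L × Bool) ⊕ I`. -/
def GG (s : I → L → Bool) : SimpleGraph ((L × Bool) ⊕ I) where
  Adj x y := match x, y with
    | Sum.inl a, Sum.inl b => a.1 = b.1 ∧ a.2 ≠ b.2
    | Sum.inl a, Sum.inr v => s v a.1 = a.2
    | Sum.inr v, Sum.inl a => s v a.1 = a.2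
    | Sum.inr _, Sum.inr _ => False
  symm := ⟨by
    rintro (a | v) (b | w) h
    · exact ⟨h.1.symm, h.2.symm⟩
    · exact h
    · exact h
    · exact h⟩
  loopless := ⟨by
    rintro (a | v) h
    · exact h.2 rfl
    · exact h⟩

variable {s : I → L → Bool}

theorem GG_ll (a b : L × Bool) : (GG s).Adj (Sum.inl a) (Sum.inl b) ↔ a.1 = b.1 ∧ a.2 ≠ b.2 :=
  Iff.rfl

theorem GG_lr (a : L × Bool) (v : I) : (GG s).Adj (Sum.inl a) (Sum.inr v) ↔ s v a.1 = a.2 :=
  Iff.rfl

theorem GG_rl (a : L × Bool) (v : I) : (GG s).Adj (Sum.inr v) (Sum.inl a) ↔ s v a.1 = a.2 :=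
  Iff.rfl

theorem GG_rr (v w : I) : (GG s).Adj (Sum.inr v) (Sum.inr w) ↔ False :=
  Iff.rfl

theorem triFree : (GG s).CliqueFree 3 := by
  intro t ht
  rw [SimpleGraph.is3Clique_iff] at ht
  obtain ⟨x, y, z, hxy, hxz, hyz, _⟩ := ht
  rcases x with a | v <;> rcases y with b | w <;> rcases z with c | u
  · rw [GG_ll] at hxy hxz hyz
    have h1 := hxy.2
    have h2 := hxz.2
    have h3 := hyz.2
    revert h1 h2 h3
    cases a.2 <;> cases b.2 <;> cases c.2 <;> simp
  · rw [GG_ll] at hxy
    rw [GG_lr] at hxz hyz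
    exact hxy.2 (by rw [← hxz, ← hyz, hxy.1])
  · rw [GG_lr] at hxy
    rw [GG_ll] at hxz
    rw [GG_rl] at hyz
    exact hxz.2 (by rw [← hxy, ← hyz, hxz.1])
  · exact hyz
  · rw [GG_rl] at hxy hxz
    rw [GG_ll] at hyz
    exact hyz.2 (by rw [← hxy, ← hxz, hyz.1])
  · exact hxz
  · exact hxy
  · exact hxy

theorem indep_le (h : Data L I s) (J : Finset ((L × Bool) ⊕ I)) (hJ : (GG s).IsIndepSet J) :
    J.card ≤ 255 := by
  classical
  set X := J.toLeft with hX
  set Y := J.toRight with hY
  have hcard : X.card + Y.card = J.card := Finset.card_toLeft_add_card_toRight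
  have hXY : ∀ a ∈ X, ∀ v ∈ Y, ¬ s v a.1 = a.2 := by
    intro a ha v hv hh
    have h1 : (Sum.inl a : (L × Bool) ⊕ I) ∈ J := Finset.mem_toLeft.1 ha
    have h2 : (Sum.inr v : (L × Bool) ⊕ I) ∈ J := Finset.mem_toRight.1 hv
    exact hJ h1 h2 (by simp) ((GG_lr a v).2 hh)
  have hinj : Set.InjOn (fun a : L × Bool => a.1) (X : Set (L × Bool)) := by
    intro a ha b hb hab
    by_contra hne
    have h1 : (Sum.inl a : (L × Bool) ⊕ I) ∈ J := Finset.mem_toLeft.1 ha
    have h2 : (Sum.inl b : (L × Bool) ⊕ I) ∈ J := Finset.mem_toLeft.1 hb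
    have h3 : a.2 ≠ b.2 := fun h3 => hne (Prod.ext hab h3)
    exact hJ h1 h2 (fun e => hne (Sum.inl_injective e)) ((GG_ll a b).2 ⟨hab, h3⟩)
  have hX128 : X.card ≤ 128 := by
    rw [← h.hL, ← Finset.card_image_of_injOn hinj]
    exact Finset.card_le_univ _
  have hY255 : Y.card ≤ 255 := by
    rw [← h.hI]; exact Finset.card_le_univ _
  have hempty : NT s Y X = ∅ := by
    rw [Finset.eq_empty_iff_forall_notMem]
    intro v hv
    rw [mem_NT] at hv
    obtain ⟨hv, c, hc, e⟩ := hv
    exact hXY c hc v hv e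
  by_cases h3 : 3 ≤ X.card
  · have := card_not_NT h Y X h3
    rw [hempty, Finset.card_empty] at this
    omega
  by_cases h0 : X = ∅
  · rw [h0, Finset.card_empty] at hcard
    omega
  obtain ⟨a, ha⟩ := Finset.nonempty_iff_ne_empty.2 h0
  have h4 : Y ⊆ univ.filter fun v : I => s v a.1 = !a.2 := by
    intro v hv
    rw [Finset.mem_filter]
    refine ⟨Finset.mem_univ _, ?_⟩
    have := hXY a ha v hv
    revert this
    cases s v a.1 <;> cases a.2 <;> simp
  have h5 := Finset.card_le_card h4
  have h6 := h.c1 a.1 (!a.2)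
  omega

theorem indepNum_eq (h : Data L I s) : (GG s).indepNum = 255 := by
  classical
  apply le_antisymm
  · obtain ⟨J, hJ⟩ := (GG s).exists_isNIndepSet_indepNum
    rw [← hJ.card_eq]
    exact indep_le h J hJ.isIndepSet
  · have h1 : (GG s).IsIndepSet ((univ : Finset I).map ⟨Sum.inr, Sum.inr_injective⟩ :
        Finset ((L × Bool) ⊕ I)) := by
      intro x hx y hy _
      simp only [Finset.coe_map, Function.Embedding.coeFn_mk, Finset.coe_univ, Set.image_univ,
        Set.mem_range] at hx hy
      obtain ⟨v, rfl⟩ := hx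
      obtain ⟨w, rfl⟩ := hy
      exact fun hh => hh
    have h2 := h1.card_le_indepNum
    rw [Finset.card_map, Finset.card_univ, h.hI] at h2
    exact h2

theorem chrom (h : Data L I s) : ((255 : ℕ) : ℕ∞) < (GG s)ᶜ.chromaticNumber := by
  classical
  by_contra hcon
  have hcon' : (GG s)ᶜ.chromaticNumber ≤ ((255 : ℕ) : ℕ∞) := not_lt.1 hcon
  rw [SimpleGraph.chromaticNumber_le_iff_colorable] at hcon'
  obtain ⟨C⟩ := hcon'
  have hcardV : Fintype.card ((L × Bool) ⊕ I) = 511 := by
    rw [Fintype.card_sum, Fintype.card_prod, Fintype.card_bool, h.hL, h.hI]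
  obtain ⟨c, hc⟩ := Fintype.exists_lt_card_fiber_of_mul_lt_card (n := 2) (fun x => C x) (by
    rw [Fintype.card_fin, hcardV]; norm_num)
  obtain ⟨x, hx, y, hy, z, hz, hxy, hxz, hyz⟩ := Finset.two_lt_card.1 hc
  rw [Finset.mem_filter] at hx hy hz
  have key : ∀ p q : (L × Bool) ⊕ I, p ≠ q → C p = c → C q = c → (GG s).Adj p q := by
    intro p q hpq hp hq
    by_contra hn
    have h1 : (GG s)ᶜ.Adj p q := by
      rw [SimpleGraph.compl_adj]; exact ⟨hpq, hn⟩
    exact C.valid h1 (hp.trans hq.symm)
  apply triFree (s := s) {x, y, z}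
  rw [SimpleGraph.is3Clique_iff]
  exact ⟨x, y, z, key x y hxy hx.2 hy.2, key x z hxz hx.2 hz.2, key y z hyz hy.2 hz.2, rfl⟩

/-- No smaller number of guards than the independence number is enough, in any graph. -/
theorem lower {V : Type} [Fintype V] [DecidableEq V] (G : SimpleGraph V) (k : ℕ)
    (hk : k < G.indepNum) :
    ¬ ∃ F : Set (Finset V), F.Nonempty ∧ ∀ D ∈ F, D.card = k ∧
        ∀ v : V, ∃ u ∈ D, (u = v ∨ G.Adj u v) ∧ insert v (D.erase u) ∈ F := by
  classical
  rintro ⟨F, ⟨D₀, hD₀⟩, hF⟩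
  obtain ⟨J, hJ⟩ := G.exists_isNIndepSet_indepNum
  let P : Finset (Finset V) := univ.filter fun D => D ∈ F
  obtain ⟨D, hD, hmax⟩ := Finset.exists_max_image P (fun D => (D ∩ J).card)
    ⟨D₀, by simp [P, hD₀]⟩
  have hDF : D ∈ F := by simpa [P] using hD
  by_cases hJD : J ⊆ D
  · have h1 := Finset.card_le_card hJD
    rw [hJ.card_eq, (hF D hDF).1] at h1
    omega
  · obtain ⟨v, hvJ, hvD⟩ := Finset.not_subset.1 hJD
    obtain ⟨u, huD, huv, hmem⟩ := (hF D hDF).2 v
    have huv' : G.Adj u v := by
      rcases huv with e | e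
      · exact absurd (e ▸ huD) hvD
      · exact e
    have huJ : u ∉ J := by
      intro hu
      exact hJ.isIndepSet hu hvJ huv'.ne huv'
    have h1 := hmax _ (show insert v (D.erase u) ∈ P by simp [P, hmem])
    have h2 : insert v (D ∩ J) ⊆ (insert v (D.erase u)) ∩ J := by
      intro x hx
      rw [Finset.mem_insert] at hx
      rw [Finset.mem_inter]
      rcases hx with rfl | hx
      · exact ⟨Finset.mem_insert_self _ _, hvJ⟩
      · rw [Finset.mem_inter] at hx
        refine ⟨Finset.mem_insert_of_mem (Finset.mem_erase.2 ⟨?_, hx.1⟩), hx.2⟩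
        rintro rfl
        exact huJ hx.2
    have h3 := Finset.card_le_card h2
    rw [Finset.card_insert_of_notMem (fun hh => hvD (Finset.mem_inter.1 hh).1)] at h3
    omega

theorem upper (h : Data L I s) :
    ∃ F : Set (Finset ((L × Bool) ⊕ I)), F.Nonempty ∧ ∀ D ∈ F, D.card = (GG s).indepNum ∧
      ∀ v, ∃ u ∈ D, (u = v ∨ (GG s).Adj u v) ∧ insert v (D.erase u) ∈ F := by
  classical
  refine ⟨{D | Good s D.toRight D.toLeft}, ?_, ?_⟩
  · refine ⟨(∅ : Finset (L × Bool)).disjSum univ, ?_⟩
    show Good s _ _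
    rw [Finset.toRight_disjSum, Finset.toLeft_disjSum]
    left
    refine ⟨?_, by simp [h.hI], by simp [h.hI], fun _ => ?_, by simp, by simp⟩
    · intro X hX
      rw [Finset.sdiff_empty]
      by_cases h3 : 3 ≤ X.card
      · have := card_not_NT h univ X h3
        rw [Finset.card_univ, h.hI] at this
        omega
      · by_cases h0 : X = ∅
        · subst h0; simp
        obtain ⟨a, ha⟩ := Finset.nonempty_iff_ne_empty.2 h0
        have e : ((univ : Finset I).filter fun v => s v a.1 = a.2).card +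
            (univ.filter fun v => ¬ s v a.1 = a.2).card = (univ : Finset I).card :=
          Finset.card_filter_add_card_filter_not _
        have h1 : (univ.filter fun v : I => ¬ s v a.1 = a.2) ⊆
            univ.filter fun v : I => s v a.1 = !a.2 := by
          intro v hv
          rw [Finset.mem_filter] at hv ⊢
          refine ⟨Finset.mem_univ _, ?_⟩
          have := hv.2
          revert this
          cases s v a.1 <;> cases a.2 <;> simp
        have h2 := Finset.card_le_card h1
        have h4 := h.c1 a.1 (!a.2)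
        have h5 : (univ.filter fun v : I => s v a.1 = a.2) ⊆ NT s univ X := by
          intro v hv
          rw [Finset.mem_filter] at hv
          rw [mem_NT]
          exact ⟨Finset.mem_univ _, a, ha, hv.2⟩
        have h6 := Finset.card_le_card h5
        rw [Finset.card_univ, h.hI] at e
        omega
    · exact Classical.choice (Fintype.card_pos_iff.1 (by rw [h.hI]; norm_num))
  · intro D hD
    have hD' : Good s D.toRight D.toLeft := hD
    have hcard : D.toLeft.card + D.toRight.card = D.card := Finset.card_toLeft_add_card_toRight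
    have h255 : D.toRight.card + D.toLeft.card = 255 := by
      rcases hD' with hA | hB
      · exact hA.2.1
      · exact hB.2.1
    refine ⟨by rw [indepNum_eq h]; omega, ?_⟩
    intro v
    by_cases hv : v ∈ D
    · refine ⟨v, hv, Or.inl rfl, ?_⟩
      rw [Finset.insert_erase hv]; exact hD
    · rcases v with c | u
      · have hc : c ∉ D.toLeft := fun hh => hv (Finset.mem_toLeft.1 hh)
        rcases stepC h hD' hc with ⟨v, hvT, hvc, hG⟩ | ⟨a, haW, ha1, ha2, hG⟩
        · refine ⟨Sum.inr v, Finset.mem_toRight.1 hvT, Or.inr ((GG_rl c v).2 hvc), ?_⟩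
          show Good s _ _
          have e1 : (insert (Sum.inl c) (D.erase (Sum.inr v))).toRight = D.toRight.erase v := by
            ext x; simp
          have e2 : (insert (Sum.inl c) (D.erase (Sum.inr v))).toLeft = insert c D.toLeft := by
            ext x; simp
          rw [e1, e2]; exact hG
        · refine ⟨Sum.inl a, Finset.mem_toLeft.1 haW, Or.inr ((GG_ll a c).2 ⟨ha1, ha2⟩), ?_⟩
          show Good s _ _
          have e1 : (insert (Sum.inl c) (D.erase (Sum.inl a))).toRight = D.toRight := by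
            ext x; simp
          have e2 : (insert (Sum.inl c) (D.erase (Sum.inl a))).toLeft =
              insert c (D.toLeft.erase a) := by
            ext x; simp
          rw [e1, e2]; exact hG
      · have hu : u ∉ D.toRight := fun hh => hv (Finset.mem_toRight.1 hh)
        obtain ⟨w, hw, huw, hG⟩ := stepU h hD' hu
        refine ⟨Sum.inl w, Finset.mem_toLeft.1 hw, Or.inr ((GG_lr w u).2 huw), ?_⟩
        show Good s _ _
        have e1 : (insert (Sum.inr u) (D.erase (Sum.inl w))).toRight = insert u D.toRight := by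
          ext x; simp
        have e2 : (insert (Sum.inr u) (D.erase (Sum.inl w))).toLeft = D.toLeft.erase w := by
          ext x; simp
        rw [e1, e2]; exact hG

end Graph

end Pool.Agent.MP_6cb088_co
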