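import Mathlib

set_option autoImplicit false

/-!
# Eternal domination with `α` guards in a triangle-free graph: the strategy

`C = L × Bool` carries a perfect matching `(l,true) ~ (l,false)`, `I` is an independent set of sign
vectors, `v : I` is adjacent to `(l, s v l)` for each `l`.  A configuration is a pair `(T, W)` with
`T ⊆ I`, `W ⊆ C`, `|T| + |W| = |I| = |C| - 1`.
-/

set_option linter.unusedSectionVars false

namespace Pool.Agent.MP_6cb088_co

open Finset

/-- Numeric data on the family of sign vectors. -/
structure Data (L I : Type) [Fintype L] [DecidableEq L] [Fintype I] [DecidableEq I]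
    (s : I → L → Bool) : Prop where
  hL : Fintype.card L = 128
  hI : Fintype.card I = 255
  c1 : ∀ (l : L) (σ : Bool), (univ.filter fun v : I => s v l = σ).card ≤ 128
  c3 : ∀ (l₁ l₂ l₃ : L) (σ₁ σ₂ σ₃ : Bool), l₁ ≠ l₂ → l₁ ≠ l₃ → l₂ ≠ l₃ →
    (univ.filter fun v : I => s v l₁ = σ₁ ∧ s v l₂ = σ₂ ∧ s v l₃ = σ₃).card ≤ 32

variable {L I : Type} [Fintype L] [DecidableEq L] [Fintype I] [DecidableEq I] {s : I → L → Bool}

/-- Vectors of `T` adjacent to some cell of `X`. -/
def NT (s : I → L → Bool) (T : Finset I) (X : Finset (L × Bool)) : Finset I :=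
  T.filter fun v => ∃ c ∈ X, s v c.1 = c.2

/-- Hall's condition for sets of at most four cells. -/
def Star (s : I → L → Bool) (T : Finset I) (W : Finset (L × Bool)) : Prop :=
  ∀ X : Finset (L × Bool), X.card ≤ 4 → (X \ W).card ≤ (NT s T X).card

theorem mem_NT {T : Finset I} {X : Finset (L × Bool)} {v : I} :
    v ∈ NT s T X ↔ v ∈ T ∧ ∃ c ∈ X, s v c.1 = c.2 := by
  simp [NT]

theorem NT_union (T : Finset I) (X Y : Finset (L × Bool)) :
    NT s T (X ∪ Y) = NT s T X ∪ NT s T Y := by
  ext v
  simp only [mem_NT, mem_union]
  constructor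
  · rintro ⟨h, c, hc | hc, e⟩
    · exact Or.inl ⟨h, c, hc, e⟩
    · exact Or.inr ⟨h, c, hc, e⟩
  · rintro (⟨h, c, hc, e⟩ | ⟨h, c, hc, e⟩)
    · exact ⟨h, c, Or.inl hc, e⟩
    · exact ⟨h, c, Or.inr hc, e⟩

theorem NT_mono (T : Finset I) {X Y : Finset (L × Bool)} (h : X ⊆ Y) : NT s T X ⊆ NT s T Y := by
  intro v hv
  rw [mem_NT] at hv ⊢
  obtain ⟨h1, c, hc, e⟩ := hv
  exact ⟨h1, c, h hc, e⟩

theorem NT_mono_left {T T' : Finset I} (X : Finset (L × Bool)) (h : T ⊆ T') :
    NT s T X ⊆ NT s T' X := by
  intro v hv
  rw [mem_NT] at hv ⊢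
  exact ⟨h hv.1, hv.2⟩

theorem NT_erase (T : Finset I) (X : Finset (L × Bool)) (v : I) :
    NT s (T.erase v) X = (NT s T X).erase v := by
  ext u
  simp only [mem_NT, mem_erase]
  constructor
  · rintro ⟨⟨a, b⟩, c⟩; exact ⟨a, b, c⟩
  · rintro ⟨a, b, c⟩; exact ⟨⟨a, b⟩, c⟩

theorem card_not_NT (h : Data L I s) (T : Finset I) (X : Finset (L × Bool)) (hX : 3 ≤ X.card) :
    T.card ≤ (NT s T X).card + 32 := by
  classical
  have e : (T.filter fun v => ∃ c ∈ X, s v c.1 = c.2).card +
      (T.filter fun v => ¬ ∃ c ∈ X, s v c.1 = c.2).card = T.card :=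
    Finset.card_filter_add_card_filter_not _
  have hb : (T.filter fun v => ¬ ∃ c ∈ X, s v c.1 = c.2).card ≤ 32 := by
    obtain ⟨a, ha, b, hb, c, hc, hab, hac, hbc⟩ := Finset.two_lt_card.1 hX
    have key : ∀ x ∈ X, ∀ y ∈ X, x ≠ y → x.1 = y.1 →
        (T.filter fun v => ¬ ∃ c ∈ X, s v c.1 = c.2) = ∅ := by
      intro x hx y hy hxy hxy1
      rw [Finset.filter_eq_empty_iff]
      intro v _ hcon
      apply hcon
      have h2 : x.2 ≠ y.2 := fun h2 => hxy (Prod.ext hxy1 h2)
      by_cases hv : s v x.1 = x.2
      · exact ⟨x, hx, hv⟩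
      · refine ⟨y, hy, ?_⟩
        rw [← hxy1]
        revert hv h2
        cases s v x.1 <;> cases x.2 <;> cases y.2 <;> simp
    by_cases h1 : a.1 = b.1
    · rw [key a ha b hb hab h1]; simp
    by_cases h2 : a.1 = c.1
    · rw [key a ha c hc hac h2]; simp
    by_cases h3 : b.1 = c.1
    · rw [key b hb c hc hbc h3]; simp
    refine le_trans (Finset.card_le_card ?_) (h.c3 a.1 b.1 c.1 (!a.2) (!b.2) (!c.2) h1 h2 h3)
    intro v hv
    rw [Finset.mem_filter] at hv
    rw [Finset.mem_filter]
    refine ⟨Finset.mem_univ _, ?_, ?_, ?_⟩
    · have : ¬ s v a.1 = a.2 := fun hh => hv.2 ⟨a, ha, hh⟩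
      revert this; cases s v a.1 <;> cases a.2 <;> simp
    · have : ¬ s v b.1 = b.2 := fun hh => hv.2 ⟨b, hb, hh⟩
      revert this; cases s v b.1 <;> cases b.2 <;> simp
    · have : ¬ s v c.1 = c.2 := fun hh => hv.2 ⟨c, hc, hh⟩
      revert this; cases s v c.1 <;> cases c.2 <;> simp
  unfold NT
  omega

/-- A tight set has at most two elements. -/
theorem tight_card (h : Data L I s) {T : Finset I} {W : Finset (L × Bool)} (hT : 37 ≤ T.card)
    {X : Finset (L × Bool)} (hX : X.card ≤ 4) (ht : (NT s T X).card ≤ (X \ W).card) :
    X.card ≤ 2 := by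
  by_contra hcon
  have h1 := card_not_NT h T X (by omega)
  have h2 : (X \ W).card ≤ X.card := Finset.card_le_card Finset.sdiff_subset
  omega

theorem tmove (h : Data L I s) {T : Finset I} {W : Finset (L × Bool)} (hs : Star s T W)
    (hT : 37 ≤ T.card) {c : L × Bool} (hc : c ∉ W) :
    ∃ v ∈ T, s v c.1 = c.2 ∧ Star s (T.erase v) (insert c W) := by
  classical
  let P : Finset (Finset (L × Bool)) :=
    univ.filter fun X => X.card ≤ 4 ∧ c ∉ X ∧ (NT s T X).card ≤ (X \ W).card
  have hP : P.Nonempty := by
    refine ⟨∅, ?_⟩
    simp [P, NT]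
  obtain ⟨M, hM, hmax⟩ := Finset.exists_max_image P (fun X => X.card) hP
  have hM' : M.card ≤ 4 ∧ c ∉ M ∧ (NT s T M).card ≤ (M \ W).card := by
    simpa [P] using hM
  obtain ⟨hM4, hcM, hMt⟩ := hM'
  have hM2 := tight_card h hT hM4 hMt
  -- find `v`
  have hex : ∃ v ∈ NT s T {c}, v ∉ NT s T M := by
    by_contra hcon
    push Not at hcon
    have h1 : NT s T (insert c M) = NT s T M := by
      rw [Finset.insert_eq, NT_union]
      exact Finset.union_eq_right.2 hcon
    have h2 := hs (insert c M) (le_trans (Finset.card_insert_le _ _) (by omega))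
    rw [h1] at h2
    have h3 : (insert c M) \ W = insert c (M \ W) := Finset.insert_sdiff_of_notMem _ hc
    have h4 : c ∉ M \ W := fun hh => hcM (Finset.mem_sdiff.1 hh).1
    rw [h3, Finset.card_insert_of_notMem h4] at h2
    omega
  obtain ⟨v, hv, hvM⟩ := hex
  rw [mem_NT] at hv
  obtain ⟨hvT, c', hc', hvc⟩ := hv
  rw [Finset.mem_singleton] at hc'
  subst hc'
  refine ⟨v, hvT, hvc, ?_⟩
  intro X hX
  rw [NT_erase]
  by_cases hcX : c' ∈ X
  · have h1 : X \ insert c' W = (X \ W).erase c' := by
      ext x; simp only [mem_sdiff, mem_insert, mem_erase]; tauto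
    have h2 : c' ∈ X \ W := Finset.mem_sdiff.2 ⟨hcX, hc⟩
    rw [h1, Finset.card_erase_of_mem h2]
    have h3 := hs X hX
    have h4 := Finset.pred_card_le_card_erase (s := NT s T X) (a := v)
    omega
  · have h1 : X \ insert c' W = X \ W := by
      ext x; simp only [mem_sdiff, mem_insert]
      constructor
      · rintro ⟨a, b⟩; exact ⟨a, fun hh => b (Or.inr hh)⟩
      · rintro ⟨a, b⟩
        refine ⟨a, ?_⟩
        rintro (hh | hh)
        · exact hcX (hh ▸ a)
        · exact b hh
    rw [h1]
    by_cases hvX : v ∈ NT s T X
    · rw [Finset.card_erase_of_mem hvX]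
      by_contra hcon
      have ht : (NT s T X).card ≤ (X \ W).card := by omega
      have hX2 := tight_card h hT hX ht
      have hu : (NT s T (X ∪ M)).card + (NT s T X ∩ NT s T M).card =
          (NT s T X).card + (NT s T M).card := by
        rw [NT_union]; exact Finset.card_union_add_card_inter _ _
      have hi : (NT s T (X ∩ M)).card ≤ (NT s T X ∩ NT s T M).card := by
        apply Finset.card_le_card
        exact Finset.subset_inter (NT_mono T Finset.inter_subset_left)
          (NT_mono T Finset.inter_subset_right)
      have hi2 := hs (X ∩ M) (le_trans (Finset.card_le_card Finset.inter_subset_left) hX)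
      have hw : ((X ∪ M) \ W).card + ((X ∩ M) \ W).card = (X \ W).card + (M \ W).card := by
        have e1 : (X ∩ M) \ W = (X \ W) ∩ (M \ W) := by
          ext x; simp only [mem_sdiff, mem_inter]; tauto
        rw [Finset.union_sdiff_distrib, e1]
        exact Finset.card_union_add_card_inter _ _
      have hmem : X ∪ M ∈ P := by
        simp only [P, Finset.mem_filter, Finset.mem_univ, true_and]
        refine ⟨le_trans (Finset.card_union_le _ _) (by omega), ?_, by omega⟩
        simp [hcX, hcM]
      have hle := hmax _ hmem
      have heq : M = X ∪ M := Finset.eq_of_subset_of_card_le Finset.subset_union_right hle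
      have hsub : X ⊆ M := by rw [heq]; exact Finset.subset_union_left
      exact hvM (NT_mono T hsub hvX)
    · rw [Finset.erase_eq_of_notMem hvX]
      exact hs X hX

theorem umove {T : Finset I} {W : Finset (L × Bool)} (hs : Star s T W) {u : I} (hu : u ∉ T)
    {w : L × Bool} (hw : w ∈ W) (huw : s u w.1 = w.2) :
    Star s (insert u T) (W.erase w) := by
  classical
  intro X hX
  by_cases hwX : w ∈ X
  · have h1 : X \ W.erase w = insert w (X \ W) := by
      ext x; simp only [mem_sdiff, mem_insert, mem_erase]
      constructor
      · rintro ⟨a, b⟩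
        by_cases hx : x = w
        · exact Or.inl hx
        · exact Or.inr ⟨a, fun hh => b ⟨hx, hh⟩⟩
      · rintro (a | ⟨a, b⟩)
        · subst a; exact ⟨hwX, fun hh => hh.1 rfl⟩
        · exact ⟨a, fun hh => b hh.2⟩
    have h2 : insert u (NT s T X) ⊆ NT s (insert u T) X := by
      intro v hv
      rw [Finset.mem_insert] at hv
      rw [mem_NT]
      rcases hv with rfl | hv
      · exact ⟨Finset.mem_insert_self _ _, w, hwX, huw⟩
      · rw [mem_NT] at hv
        exact ⟨Finset.mem_insert_of_mem hv.1, hv.2⟩
    have h3 := Finset.card_le_card h2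
    have h4 : u ∉ NT s T X := fun hh => hu (mem_NT.1 hh).1
    rw [Finset.card_insert_of_notMem h4] at h3
    rw [h1]
    have h5 := Finset.card_insert_le w (X \ W)
    have h6 := hs X hX
    omega
  · have h1 : X \ W.erase w = X \ W := by
      ext x; simp only [mem_sdiff, mem_erase]
      constructor
      · rintro ⟨a, b⟩; exact ⟨a, fun hh => b ⟨fun e => hwX (e ▸ a), hh⟩⟩
      · rintro ⟨a, b⟩; exact ⟨a, fun hh => b hh.2⟩
    rw [h1]
    exact le_trans (hs X hX) (Finset.card_le_card (NT_mono_left X (Finset.subset_insert _ _)))

theorem hmove {T : Finset I} {W : Finset (L × Bool)} (hs : Star s T W) {a c : L × Bool}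
    (hall : ∀ X : Finset (L × Bool), X.card ≤ 4 → a ∈ X → c ∉ X →
      (X \ W).card + 1 ≤ (NT s T X).card) (hc : c ∉ W) :
    Star s T (insert c (W.erase a)) := by
  classical
  intro X hX
  have h0 : X \ insert c (W.erase a) ⊆ insert a (X \ W) := by
    intro x
    simp only [mem_sdiff, mem_insert, mem_erase]
    rintro ⟨p, q⟩
    by_cases hx : x = a
    · exact Or.inl hx
    · exact Or.inr ⟨p, fun hh => q (Or.inr ⟨hx, hh⟩)⟩
  by_cases haX : a ∈ X
  · by_cases hcX : c ∈ X
    · have h1 : X \ insert c (W.erase a) ⊆ insert a ((X \ W).erase c) := by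
        intro x
        simp only [mem_sdiff, mem_insert, mem_erase]
        rintro ⟨p, q⟩
        by_cases hx : x = a
        · exact Or.inl hx
        · exact Or.inr ⟨fun hh => q (Or.inl hh), p, fun hh => q (Or.inr ⟨hx, hh⟩)⟩
      have h2 := Finset.card_le_card h1
      have h3 := Finset.card_insert_le a ((X \ W).erase c)
      have h4 : c ∈ X \ W := Finset.mem_sdiff.2 ⟨hcX, hc⟩
      have h5 := Finset.card_erase_add_one h4
      have h6 := hs X hX
      omega
    · have h1 := hall X hX haX hcX
      have h2 := Finset.card_le_card h0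
      have h3 := Finset.card_insert_le a (X \ W)
      omega
  · have h1 : X \ insert c (W.erase a) ⊆ X \ W := by
      intro x
      simp only [mem_sdiff, mem_insert, mem_erase]
      rintro ⟨p, q⟩
      exact ⟨p, fun hh => q (Or.inr ⟨fun e => haX (e ▸ p), hh⟩)⟩
    exact le_trans (Finset.card_le_card h1) (hs X hX)

/-- Robust Hall condition on the other side: for small `T`, the guards in `C` can always be
matched into the holes in `I`. -/
theorem hall (h : Data L I s) {T : Finset I} {W : Finset (L × Bool)}
    (hTW : T.card + W.card = 255) (hT : T.card ≤ 88) :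
    ∃ f : L × Bool → I, Set.InjOn f W ∧ ∀ w ∈ W, f w ∉ T ∧ s (f w) w.1 = w.2 := by
  classical
  have hUcard : (univ \ T : Finset I).card = 255 - T.card := by
    rw [Finset.card_sdiff_of_subset (Finset.subset_univ _), Finset.card_univ, h.hI]
  let t : W → Finset I := fun w => (univ \ T).filter fun v => s v w.1.1 = w.1.2
  have hH : ∀ Y : Finset W, Y.card ≤ (Y.biUnion t).card := by
    intro Y
    by_cases h0 : Y = ∅
    · subst h0; simp
    obtain ⟨y0, hy0⟩ := Finset.nonempty_iff_ne_empty.2 h0
    -- the whole of `U` when opposite cells are both in `Y`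
    have hYW : Y.card ≤ W.card := by
      have := Finset.card_le_univ Y
      simpa using this
    by_cases hopp : ∃ x ∈ Y, ∃ y ∈ Y, x.1.1 = y.1.1 ∧ x.1.2 ≠ y.1.2
    · obtain ⟨x, hx, y, hy, h1, h2⟩ := hopp
      have hsub : (univ \ T : Finset I) ⊆ Y.biUnion t := by
        intro v hv
        rw [Finset.mem_biUnion]
        by_cases hv1 : s v x.1.1 = x.1.2
        · exact ⟨x, hx, Finset.mem_filter.2 ⟨hv, hv1⟩⟩
        · refine ⟨y, hy, Finset.mem_filter.2 ⟨hv, ?_⟩⟩
          rw [← h1]
          revert hv1 h2
          cases s v x.1.1 <;> cases x.1.2 <;> cases y.1.2 <;> simp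
      have := Finset.card_le_card hsub
      omega
    · push Not at hopp
      -- injective projection
      have hinj : Set.InjOn (fun y : W => y.1.1) (Y : Set W) := by
        intro x hx y hy hxy
        apply Subtype.ext
        exact Prod.ext hxy (hopp x hx y hy hxy)
      have hY128 : Y.card ≤ 128 := by
        rw [← h.hL, ← Finset.card_image_of_injOn hinj]
        exact Finset.card_le_univ _
      by_cases h3 : 3 ≤ Y.card
      · obtain ⟨a, ha, b, hb, c, hc, hab, hac, hbc⟩ := Finset.two_lt_card.1 h3
        have hne : ∀ x ∈ Y, ∀ y ∈ Y, x ≠ y → x.1.1 ≠ y.1.1 := fun x hx y hy hxy he =>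
          hxy (hinj hx hy he)
        have hsub : (univ \ T : Finset I) ⊆ Y.biUnion t ∪
            (univ.filter fun v : I => s v a.1.1 = !a.1.2 ∧ s v b.1.1 = !b.1.2 ∧
              s v c.1.1 = !c.1.2) := by
          intro v hv
          by_cases hva : s v a.1.1 = a.1.2
          · exact Finset.mem_union_left _ (Finset.mem_biUnion.2 ⟨a, ha,
              Finset.mem_filter.2 ⟨hv, hva⟩⟩)
          by_cases hvb : s v b.1.1 = b.1.2
          · exact Finset.mem_union_left _ (Finset.mem_biUnion.2 ⟨b, hb,
              Finset.mem_filter.2 ⟨hv, hvb⟩⟩)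
          by_cases hvc : s v c.1.1 = c.1.2
          · exact Finset.mem_union_left _ (Finset.mem_biUnion.2 ⟨c, hc,
              Finset.mem_filter.2 ⟨hv, hvc⟩⟩)
          apply Finset.mem_union_right
          rw [Finset.mem_filter]
          refine ⟨Finset.mem_univ _, ?_, ?_, ?_⟩
          · revert hva; cases s v a.1.1 <;> cases a.1.2 <;> simp
          · revert hvb; cases s v b.1.1 <;> cases b.1.2 <;> simp
          · revert hvc; cases s v c.1.1 <;> cases c.1.2 <;> simp
        have h4 := Finset.card_le_card hsub
        have h5 := Finset.card_union_le (Y.biUnion t)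
          (univ.filter fun v : I => s v a.1.1 = !a.1.2 ∧ s v b.1.1 = !b.1.2 ∧
              s v c.1.1 = !c.1.2)
        have h6 := h.c3 a.1.1 b.1.1 c.1.1 (!a.1.2) (!b.1.2) (!c.1.2) (hne a ha b hb hab)
          (hne a ha c hc hac) (hne b hb c hc hbc)
        omega
      · have hsub : (univ \ T : Finset I) ⊆ Y.biUnion t ∪
            (univ.filter fun v : I => s v y0.1.1 = !y0.1.2) := by
          intro v hv
          by_cases hva : s v y0.1.1 = y0.1.2
          · exact Finset.mem_union_left _ (Finset.mem_biUnion.2 ⟨y0, hy0,
              Finset.mem_filter.2 ⟨hv, hva⟩⟩)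
          apply Finset.mem_union_right
          rw [Finset.mem_filter]
          refine ⟨Finset.mem_univ _, ?_⟩
          revert hva; cases s v y0.1.1 <;> cases y0.1.2 <;> simp
        have h4 := Finset.card_le_card hsub
        have h5 := Finset.card_union_le (Y.biUnion t)
          (univ.filter fun v : I => s v y0.1.1 = !y0.1.2)
        have h6 := h.c1 y0.1.1 (!y0.1.2)
        omega
  obtain ⟨g, hg, hgt⟩ := (Finset.all_card_le_biUnion_card_iff_exists_injective t).1 hH
  have hne : Nonempty I := by
    apply Fintype.card_pos_iff.1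
    rw [h.hI]; norm_num
  refine ⟨fun w => if hw : w ∈ W then g ⟨w, hw⟩ else Classical.arbitrary I, ?_, ?_⟩
  · intro x hx y hy hxy
    have hx' : x ∈ W := hx
    have hy' : y ∈ W := hy
    simp only [hx', hy', dif_pos] at hxy
    have := hg hxy
    exact congrArg Subtype.val this
  · intro w hw
    simp only [hw, dif_pos]
    have := hgt ⟨w, hw⟩
    simp only [t, Finset.mem_filter, Finset.mem_sdiff] at this
    exact ⟨this.1.2, this.2⟩

/-- Coordinates at which at least one of the two cells is unguarded. -/
def nf (W : Finset (L × Bool)) : Finset L :=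
  univ.filter fun l => ¬ ((l, true) ∈ W ∧ (l, false) ∈ W)

theorem mem_nf {W : Finset (L × Bool)} {l : L} :
    l ∈ nf W ↔ ¬ ((l, true) ∈ W ∧ (l, false) ∈ W) := by
  simp [nf]

theorem nf_le (h : Data L I s) (W : Finset (L × Bool)) : (nf W).card + W.card ≤ 256 := by
  classical
  have h1 : nf W ⊆ (univ \ W).image Prod.fst := by
    intro l hl
    rw [mem_nf] at hl
    rw [Finset.mem_image]
    by_cases h1 : (l, true) ∈ W
    · have h2 : (l, false) ∉ W := fun h2 => hl ⟨h1, h2⟩
      exact ⟨(l, false), Finset.mem_sdiff.2 ⟨Finset.mem_univ _, h2⟩, rfl⟩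
    · exact ⟨(l, true), Finset.mem_sdiff.2 ⟨Finset.mem_univ _, h1⟩, rfl⟩
  have h2 := le_trans (Finset.card_le_card h1) Finset.card_image_le
  rw [Finset.card_sdiff_of_subset (Finset.subset_univ _), Finset.card_univ, Fintype.card_prod,
    h.hL, Fintype.card_bool] at h2
  have h3 : W.card ≤ 256 := by
    have := Finset.card_le_univ W
    rw [Fintype.card_prod, h.hL, Fintype.card_bool] at this
    exact this
  omega

theorem le_nf (h : Data L I s) (W : Finset (L × Bool)) : 256 ≤ 2 * (nf W).card + W.card := by
  classical
  have h1 : (univ \ W : Finset (L × Bool)) ⊆ (nf W) ×ˢ (univ : Finset Bool) := by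
    intro c hc
    rw [Finset.mem_product]
    refine ⟨?_, Finset.mem_univ _⟩
    rw [mem_nf]
    rintro ⟨h1, h2⟩
    have hc' := (Finset.mem_sdiff.1 hc).2
    obtain ⟨l, σ⟩ := c
    cases σ
    · exact hc' h2
    · exact hc' h1
  have h2 := Finset.card_le_card h1
  rw [Finset.card_sdiff_of_subset (Finset.subset_univ _), Finset.card_univ, Fintype.card_prod,
    h.hL, Fintype.card_bool, Finset.card_product, Finset.card_univ, Fintype.card_bool] at h2
  omega

/-- Region A: many guards in `I`. -/
def RA (s : I → L → Bool) (T : Finset I) (W : Finset (L × Bool)) : Prop :=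
  Star s T W ∧ T.card + W.card = 255 ∧ 88 ≤ T.card ∧
    ∃ f : L × Bool → I, Set.InjOn f W ∧ ∀ w ∈ W, f w ∉ T ∧ s (f w) w.1 = w.2

/-- Region B: few guards in `I`. -/
def RB (s : I → L → Bool) (T : Finset I) (W : Finset (L × Bool)) : Prop :=
  Star s T W ∧ T.card + W.card = 255 ∧ T.card ≤ 87 ∧
    ∃ (κ : Finset L) (X : L → Finset (L × Bool)), κ.card ≤ 2 ∧
      (∀ l ∈ κ, (l, true) ∈ W ∧ (l, false) ∈ W ∧ (∃ σ, (l, σ) ∈ X l) ∧ (X l).card ≤ 2 ∧
        (NT s T (X l)).card ≤ 2) ∧
      88 ≤ 2 * (nf W).card + ∑ l ∈ κ, (3 - (NT s T (X l)).card)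

def Good (s : I → L → Bool) (T : Finset I) (W : Finset (L × Bool)) : Prop :=
  RA s T W ∨ RB s T W

theorem RB.bound (h : Data L I s) {T : Finset I} {W : Finset (L × Bool)} (hB : RB s T W) :
    40 ≤ T.card := by
  obtain ⟨_, hTW, _, κ, X, hκ, _, hpot⟩ := hB
  have h1 := nf_le h W
  have h2 : ∑ l ∈ κ, (3 - (NT s T (X l)).card) ≤ κ.card * 3 :=
    Finset.sum_le_card_nsmul _ _ _ (fun l _ => by omega)
  omega

/-- An attack on a cell. -/
theorem stepC (h : Data L I s) {T : Finset I} {W : Finset (L × Bool)} (hG : Good s T W)
    {c : L × Bool} (hc : c ∉ W) :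
    (∃ v ∈ T, s v c.1 = c.2 ∧ Good s (T.erase v) (insert c W)) ∨
    (∃ a ∈ W, a.1 = c.1 ∧ a.2 ≠ c.2 ∧ Good s T (insert c (W.erase a))) := by
  classical
  rcases hG with ⟨hs, hTW, hT, f, hf, hfW⟩ | hB
  · -- region A
    left
    obtain ⟨v, hvT, hvc, hs'⟩ := tmove h hs (by omega) hc
    refine ⟨v, hvT, hvc, ?_⟩
    have hcard1 : (T.erase v).card = T.card - 1 := Finset.card_erase_of_mem hvT
    have hcard2 : (insert c W).card = W.card + 1 := Finset.card_insert_of_notMem hc
    by_cases hT' : 89 ≤ T.card
    · left
      refine ⟨hs', by omega, by omega, Function.update f c v, ?_, ?_⟩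
      · have hne : ∀ w ∈ W, w ≠ c := fun w hw e => hc (e ▸ hw)
        intro x hx y hy hxy
        rw [Finset.mem_coe, Finset.mem_insert] at hx hy
        rcases hx with rfl | hx
        · rcases hy with rfl | hy
          · rfl
          · rw [Function.update_self, Function.update_of_ne (hne y hy)] at hxy
            exact absurd hvT (hxy ▸ (hfW y hy).1)
        · rcases hy with rfl | hy
          · rw [Function.update_self, Function.update_of_ne (hne x hx)] at hxy
            exact absurd hvT (hxy ▸ (hfW x hx).1)
          · rw [Function.update_of_ne (hne x hx), Function.update_of_ne (hne y hy)] at hxy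
            exact hf hx hy hxy
      · intro w hw
        rw [Finset.mem_insert] at hw
        rcases hw with rfl | hw
        · rw [Function.update_self]
          exact ⟨Finset.notMem_erase _ _, hvc⟩
        · have hne : w ≠ c := fun e => hc (e ▸ hw)
          rw [Function.update_of_ne hne]
          exact ⟨fun hh => (hfW w hw).1 (Finset.mem_of_mem_erase hh), (hfW w hw).2⟩
    · right
      refine ⟨hs', by omega, by omega, ∅, fun _ => ∅, by simp, by simp, ?_⟩
      have := le_nf h (insert c W)
      simp only [Finset.sum_empty]
      omega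
  · -- region B
    have hT40 := hB.bound h
    obtain ⟨hs, hTW, hT, κ, X, hκ, hκX, hpot⟩ := hB
    let a : L × Bool := (c.1, !c.2)
    have hac : a.2 ≠ c.2 := by simp [a]
    have hclκ : c.1 ∉ κ := by
      intro hh
      have h1 := hκX _ hh
      apply hc
      obtain ⟨l, σ⟩ := c
      cases σ
      · exact h1.2.1
      · exact h1.1
    have hcnf : c.1 ∈ nf W := by
      rw [mem_nf]
      rintro ⟨h1, h2⟩
      apply hc
      obtain ⟨l, σ⟩ := c
      cases σ
      · exact h2
      · exact h1
    by_cases haW : a ∈ W
    · by_cases htight : ∃ Y : Finset (L × Bool), Y.card ≤ 4 ∧ a ∈ Y ∧ c ∉ Y ∧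
          (NT s T Y).card ≤ (Y \ W).card
      · -- `T`-move filling the pair
        left
        obtain ⟨Y, hY4, haY, hcY, hYt⟩ := htight
        have hY2 := tight_card h (by omega) hY4 hYt
        have hYW : (Y \ W).card + 1 ≤ Y.card := by
          have h1 : Y \ W ⊆ Y.erase a := by
            intro x hx
            rw [Finset.mem_sdiff] at hx
            exact Finset.mem_erase.2 ⟨fun e => hx.2 (e ▸ haW), hx.1⟩
          have h2 := Finset.card_le_card h1
          have h3 := Finset.card_erase_add_one haY
          omega
        obtain ⟨v, hvT, hvc, hs'⟩ := tmove h hs (by omega) hc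
        refine ⟨v, hvT, hvc, ?_⟩
        have hcard1 : (T.erase v).card = T.card - 1 := Finset.card_erase_of_mem hvT
        have hcard2 : (insert c W).card = W.card + 1 := Finset.card_insert_of_notMem hc
        have hNle : ∀ Z : Finset (L × Bool), (NT s (T.erase v) Z).card ≤ (NT s T Z).card :=
          fun Z => Finset.card_le_card (NT_mono_left Z (Finset.erase_subset _ _))
        let X' : L → Finset (L × Bool) := Function.update X c.1 Y
        have hX'1 : X' c.1 = Y := Function.update_self _ _ _
        have hX'2 : ∀ l ∈ κ, X' l = X l := fun l hl =>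
          Function.update_of_ne (fun e : l = c.1 => hclκ (e ▸ hl)) _ _
        have hprop : ∀ l ∈ insert c.1 κ, (l, true) ∈ insert c W ∧ (l, false) ∈ insert c W ∧
            (∃ σ, (l, σ) ∈ X' l) ∧ (X' l).card ≤ 2 ∧ (NT s (T.erase v) (X' l)).card ≤ 2 := by
          intro l hl
          rw [Finset.mem_insert] at hl
          rcases hl with rfl | hl
          · rw [hX'1]
            have hboth : (c.1, true) ∈ insert c W ∧ (c.1, false) ∈ insert c W := by
              have h1 : a ∈ insert c W := Finset.mem_insert_of_mem haW
              have h2 : c ∈ insert c W := Finset.mem_insert_self _ _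
              clear_value X'
              revert h1 h2
              generalize insert c W = W'
              obtain ⟨l, σ⟩ := c
              cases σ
              · exact fun h1 h2 => ⟨h1, h2⟩
              · exact fun h1 h2 => ⟨h2, h1⟩
            refine ⟨hboth.1, hboth.2, ⟨!c.2, haY⟩, hY2, ?_⟩
            have := hNle Y
            omega
          · rw [hX'2 l hl]
            obtain ⟨h1, h2, h3, h4, h5⟩ := hκX l hl
            exact ⟨Finset.mem_insert_of_mem h1, Finset.mem_insert_of_mem h2, h3, h4,
              le_trans (hNle _) h5⟩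
        right
        refine ⟨hs', by omega, by omega, insert c.1 κ, X', ?_, hprop, ?_⟩
        · -- at most two marked coordinates
          by_contra hcon
          push Not at hcon
          obtain ⟨l₁, hl₁, l₂, hl₂, l₃, hl₃, h12, h13, h23⟩ := Finset.two_lt_card.1 hcon
          obtain ⟨_, _, ⟨σ₁, e₁⟩, _, n₁⟩ := hprop l₁ hl₁
          obtain ⟨_, _, ⟨σ₂, e₂⟩, _, n₂⟩ := hprop l₂ hl₂
          obtain ⟨_, _, ⟨σ₃, e₃⟩, _, n₃⟩ := hprop l₃ hl₃
          have hZ : 3 ≤ (X' l₁ ∪ X' l₂ ∪ X' l₃).card := by
            apply Finset.two_lt_card.2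
            refine ⟨(l₁, σ₁), ?_, (l₂, σ₂), ?_, (l₃, σ₃), ?_, ?_, ?_, ?_⟩
            · simp [e₁]
            · simp [e₂]
            · simp [e₃]
            · exact fun e => h12 (congrArg Prod.fst e)
            · exact fun e => h13 (congrArg Prod.fst e)
            · exact fun e => h23 (congrArg Prod.fst e)
          have h1 := card_not_NT h (T.erase v) _ hZ
          rw [NT_union, NT_union] at h1
          have h2 := Finset.card_union_le (NT s (T.erase v) (X' l₁) ∪ NT s (T.erase v) (X' l₂))
            (NT s (T.erase v) (X' l₃))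
          have h3 := Finset.card_union_le (NT s (T.erase v) (X' l₁)) (NT s (T.erase v) (X' l₂))
          omega
        · rw [Finset.sum_insert hclκ, hX'1]
          have h1 : (nf W).card ≤ (nf (insert c W)).card + 1 := by
            have h2 : nf W ⊆ insert c.1 (nf (insert c W)) := by
              intro l hl
              by_cases hlc : l = c.1
              · exact Finset.mem_insert.2 (Or.inl hlc)
              · apply Finset.mem_insert_of_mem
                rw [mem_nf] at hl ⊢
                rintro ⟨p, q⟩
                apply hl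
                constructor
                · rcases Finset.mem_insert.1 p with e | e
                  · exact absurd (congrArg Prod.fst e) hlc
                  · exact e
                · rcases Finset.mem_insert.1 q with e | e
                  · exact absurd (congrArg Prod.fst e) hlc
                  · exact e
            exact le_trans (Finset.card_le_card h2) (Finset.card_insert_le _ _)
          have h2 : ∑ l ∈ κ, (3 - (NT s T (X l)).card) ≤
              ∑ l ∈ κ, (3 - (NT s (T.erase v) (X' l)).card) := by
            apply Finset.sum_le_sum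
            intro l hl
            rw [hX'2 l hl]
            have := hNle (X l)
            omega
          have h3 := hNle Y
          omega
      · -- `H`-move
        right
        push Not at htight
        refine ⟨a, haW, rfl, hac, Or.inr ?_⟩
        have hcard : (insert c (W.erase a)).card = W.card := by
          rw [Finset.card_insert_of_notMem (fun hh => hc (Finset.mem_of_mem_erase hh))]
          exact Finset.card_erase_add_one haW
        have hs' : Star s T (insert c (W.erase a)) := by
          apply hmove hs _ hc
          intro Y hY ha hc'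
          have := htight Y hY ha hc'
          omega
        refine ⟨hs', by omega, hT, κ, X, hκ, ?_, ?_⟩
        · intro l hl
          obtain ⟨h1, h2, h3⟩ := hκX l hl
          have hlc : l ≠ c.1 := fun e => hclκ (e ▸ hl)
          refine ⟨?_, ?_, h3⟩
          · apply Finset.mem_insert_of_mem
            exact Finset.mem_erase.2 ⟨fun e => hlc (congrArg Prod.fst e), h1⟩
          · apply Finset.mem_insert_of_mem
            exact Finset.mem_erase.2 ⟨fun e => hlc (congrArg Prod.fst e), h2⟩
        · have h1 : nf W ⊆ nf (insert c (W.erase a)) := by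
            intro l hl
            rw [mem_nf] at hl ⊢
            by_cases hlc : l = c.1
            · have : a ∉ insert c (W.erase a) := by
                intro hh
                rcases Finset.mem_insert.1 hh with e | e
                · exact hac (congrArg Prod.snd e)
                · exact (Finset.mem_erase.1 e).1 rfl
              rintro ⟨p, q⟩
              apply this
              subst hlc
              revert p q
              generalize insert c (W.erase a) = W'
              intro p q
              show (c.1, !c.2) ∈ W'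
              cases c.2
              · exact p
              · exact q
            · rintro ⟨p, q⟩
              apply hl
              constructor
              · rcases Finset.mem_insert.1 p with e | e
                · exact absurd (congrArg Prod.fst e) hlc
                · exact Finset.mem_of_mem_erase e
              · rcases Finset.mem_insert.1 q with e | e
                · exact absurd (congrArg Prod.fst e) hlc
                · exact Finset.mem_of_mem_erase e
          have := Finset.card_le_card h1
          omega
    · -- `T`-move at an empty pair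
      left
      obtain ⟨v, hvT, hvc, hs'⟩ := tmove h hs (by omega) hc
      refine ⟨v, hvT, hvc, Or.inr ?_⟩
      have hcard1 : (T.erase v).card = T.card - 1 := Finset.card_erase_of_mem hvT
      have hcard2 : (insert c W).card = W.card + 1 := Finset.card_insert_of_notMem hc
      have hNle : ∀ Z : Finset (L × Bool), (NT s (T.erase v) Z).card ≤ (NT s T Z).card :=
        fun Z => Finset.card_le_card (NT_mono_left Z (Finset.erase_subset _ _))
      refine ⟨hs', by omega, by omega, κ, X, hκ, ?_, ?_⟩
      · intro l hl
        obtain ⟨h1, h2, h3, h4, h5⟩ := hκX l hl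
        exact ⟨Finset.mem_insert_of_mem h1, Finset.mem_insert_of_mem h2, h3, h4,
          le_trans (hNle _) h5⟩
      · have h1 : nf W ⊆ nf (insert c W) := by
          intro l hl
          rw [mem_nf] at hl ⊢
          by_cases hlc : l = c.1
          · have : a ∉ insert c W := by
              intro hh
              rcases Finset.mem_insert.1 hh with e | e
              · exact hac (congrArg Prod.snd e)
              · exact haW e
            rintro ⟨p, q⟩
            apply this
            subst hlc
            revert p q
            generalize insert c W = W'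
            intro p q
            show (c.1, !c.2) ∈ W'
            cases c.2
            · exact p
            · exact q
          · rintro ⟨p, q⟩
            apply hl
            constructor
            · rcases Finset.mem_insert.1 p with e | e
              · exact absurd (congrArg Prod.fst e) hlc
              · exact e
            · rcases Finset.mem_insert.1 q with e | e
              · exact absurd (congrArg Prod.fst e) hlc
              · exact e
        have h2 := Finset.card_le_card h1
        have h3 : ∑ l ∈ κ, (3 - (NT s T (X l)).card) ≤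
            ∑ l ∈ κ, (3 - (NT s (T.erase v) (X l)).card) := by
          apply Finset.sum_le_sum
          intro l hl
          have := hNle (X l)
          omega
        omega

/-- An attack on a vertex of `I`. -/
theorem stepU (h : Data L I s) {T : Finset I} {W : Finset (L × Bool)} (hG : Good s T W)
    {u : I} (hu : u ∉ T) :
    ∃ w ∈ W, s u w.1 = w.2 ∧ Good s (insert u T) (W.erase w) := by
  classical
  have hcardT : (insert u T).card = T.card + 1 := Finset.card_insert_of_notMem hu
  rcases hG with ⟨hs, hTW, hT, f, hf, hfW⟩ | hB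
  · -- region A: the partner moves
    have hsurj : ∃ w ∈ W, f w = u := by
      have h1 : W.image f ⊆ univ \ T := by
        intro v hv
        obtain ⟨w, hw, rfl⟩ := Finset.mem_image.1 hv
        exact Finset.mem_sdiff.2 ⟨Finset.mem_univ _, (hfW w hw).1⟩
      have h2 : W.image f = univ \ T := by
        apply Finset.eq_of_subset_of_card_le h1
        rw [Finset.card_image_of_injOn hf, Finset.card_sdiff_of_subset (Finset.subset_univ _),
          Finset.card_univ, h.hI]
        omega
      have h3 : u ∈ W.image f := by
        rw [h2]; exact Finset.mem_sdiff.2 ⟨Finset.mem_univ _, hu⟩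
      obtain ⟨w, hw, e⟩ := Finset.mem_image.1 h3
      exact ⟨w, hw, e⟩
    obtain ⟨w, hw, rfl⟩ := hsurj
    have hcardW := Finset.card_erase_add_one hw
    refine ⟨w, hw, (hfW w hw).2, Or.inl ⟨umove hs hu hw (hfW w hw).2, by omega, by omega, f,
      hf.mono (by intro x hx; exact Finset.mem_of_mem_erase hx), ?_⟩⟩
    intro x hx
    have hxW := Finset.mem_of_mem_erase hx
    refine ⟨?_, (hfW x hxW).2⟩
    intro hh
    rcases Finset.mem_insert.1 hh with e | e
    · exact (Finset.mem_erase.1 hx).1 (hf hxW hw e)
    · exact (hfW x hxW).1 e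
  · -- region B: break a full, unmarked pair
    have hT40 := hB.bound h
    obtain ⟨hs, hTW, hT, κ, X, hκ, hκX, hpot⟩ := hB
    have hnf := nf_le h W
    have hex : ∃ j : L, j ∉ nf W ∪ κ := by
      by_contra hcon
      push Not at hcon
      have h1 : (univ : Finset L) ⊆ nf W ∪ κ := fun j _ => hcon j
      have h2 := Finset.card_le_card h1
      have h3 := Finset.card_union_le (nf W) κ
      rw [Finset.card_univ, h.hL] at h2
      omega
    obtain ⟨j, hj⟩ := hex
    rw [Finset.mem_union, not_or, mem_nf, not_not] at hj
    obtain ⟨⟨hj1, hj2⟩, hjκ⟩ := hj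
    have hw : ((j, s u j) : L × Bool) ∈ W := by
      cases s u j
      · exact hj2
      · exact hj1
    have hcardW := Finset.card_erase_add_one hw
    have hs' : Star s (insert u T) (W.erase (j, s u j)) := umove hs hu hw rfl
    refine ⟨(j, s u j), hw, rfl, ?_⟩
    by_cases hT' : T.card = 87
    · left
      refine ⟨hs', by omega, by omega, ?_⟩
      exact hall h (by omega) (by omega)
    · right
      have hN1 : ∀ Z : Finset (L × Bool), (NT s (insert u T) Z).card ≤ (NT s T Z).card + 1 := by
        intro Z
        have h1 : NT s (insert u T) Z ⊆ insert u (NT s T Z) := by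
          intro v hv
          rw [mem_NT] at hv
          rcases Finset.mem_insert.1 hv.1 with e | e
          · exact Finset.mem_insert.2 (Or.inl e)
          · exact Finset.mem_insert_of_mem (mem_NT.2 ⟨e, hv.2⟩)
        exact le_trans (Finset.card_le_card h1) (Finset.card_insert_le _ _)
      refine ⟨hs', by omega, by omega,
        κ.filter (fun l => (NT s (insert u T) (X l)).card ≤ 2), X, ?_, ?_, ?_⟩
      · exact le_trans (Finset.card_filter_le _ _) hκ
      · intro l hl
        rw [Finset.mem_filter] at hl
        obtain ⟨h1, h2, h3, h4, h5⟩ := hκX l hl.1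
        have hlj : l ≠ j := fun e => hjκ (e ▸ hl.1)
        exact ⟨Finset.mem_erase.2 ⟨fun e => hlj (congrArg Prod.fst e), h1⟩,
          Finset.mem_erase.2 ⟨fun e => hlj (congrArg Prod.fst e), h2⟩, h3, h4, hl.2⟩
      · have h1 : (nf W).card + 1 ≤ (nf (W.erase (j, s u j))).card := by
          have h2 : insert j (nf W) ⊆ nf (W.erase (j, s u j)) := by
            intro l hl
            rw [mem_nf]
            rintro ⟨p, q⟩
            rcases Finset.mem_insert.1 hl with e | e
            · subst e
              revert p q
              cases s u l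
              · intro _ q; exact (Finset.mem_erase.1 q).1 rfl
              · intro p _; exact (Finset.mem_erase.1 p).1 rfl
            · rw [mem_nf] at e
              exact e ⟨Finset.mem_of_mem_erase p, Finset.mem_of_mem_erase q⟩
          have h3 : j ∉ nf W := by
            rw [mem_nf, not_not]; exact ⟨hj1, hj2⟩
          have h4 := Finset.card_le_card h2
          rw [Finset.card_insert_of_notMem h3] at h4
          exact h4
        have h2 : ∑ l ∈ κ, (3 - (NT s T (X l)).card) ≤
            ∑ l ∈ κ.filter (fun l => (NT s (insert u T) (X l)).card ≤ 2),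
              (3 - (NT s (insert u T) (X l)).card) + κ.card := by
          rw [Finset.sum_filter, Finset.card_eq_sum_ones, ← Finset.sum_add_distrib]
          apply Finset.sum_le_sum
          intro l hl
          have h3 := hN1 (X l)
          split_ifs with h4
          · omega
          · omega
        omega

end Pool.Agent.MP_6cb088_co
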